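import Pool.Agent.Helper64.DT.Stmts

/-! Module GN of the diamond-free circle graph project. -/

set_option autoImplicit false

namespace Pool.Agent.Helper64.DT

open Pool.Agent.Helper64.CT
open Pool.Agent.Helper64.HG (Ovl Model Circ IC HellyCircle ChordModel)

theorem gn_ex1 (a b c d e f : Bool) (h : Ex1 (a ≠ b) (c ≠ d) (e ≠ f)) :
    xor (xor a b) (xor (xor c d) (xor e f)) = true := by
  unfold Ex1 at h
  revert h
  revert a b c d e f
  decide

/-- two maximal cliques with a common edge are equal -/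
theorem gn_eq {V : Type} {G : SimpleGraph V} (h : DF G) {Q : Set V} (hQ : MaxC G Q) {n e : V}
    (hn : n ∈ Q) (he : e ∈ Q) (hne : G.Adj n e) :
    Q = {u | u = n ∨ u = e ∨ (G.Adj n u ∧ G.Adj e u)} := by
  ext u
  constructor
  · intro hu
    by_cases e1 : u = n
    · exact Or.inl e1
    by_cases e2 : u = e
    · exact Or.inr (Or.inl e2)
    exact Or.inr (Or.inr ⟨hQ.1 n hn u hu (fun z => e1 z.symm), hQ.1 e he u hu (fun z => e2 z.symm)⟩)
  · rintro (rfl | rfl | ⟨h1, h2⟩)
    · exact hn
    · exact he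
    · refine hQ.2 u fun x hx hxu => ?_
      by_cases e1 : x = n
      · rw [e1]; exact h1.symm
      by_cases e2 : x = e
      · rw [e2]; exact h2.symm
      exact (h n e x u hne (hQ.1 n hn x hx (fun z => e1 z.symm))
        (hQ.1 e he x hx (fun z => e2 z.symm)) h1 h2 hxu).symm

theorem gn_b1 (a b c d e f : Bool) (h : xor (xor a b) (xor (xor c d) (xor e f)) = true) :
    xor (!(xor c e)) (!(xor d a)) = !(xor f b) := by
  revert h
  revert a b c d e f
  decide

theorem gn_b2 (A B sw se : Bool) :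
    xor (xor A B) (!(xor (xor sw B) se)) = !(xor (xor sw A) se) := by
  revert A B sw se
  decide

theorem gn_b3 (A B sw se : Bool) :
    xor (!(xor (xor sw B) se)) (xor A B) = !(xor se (xor sw A)) := by
  revert A B sw se
  decide

theorem gn_b4 (a A B sw : Bool) :
    xor (!(xor a (xor sw A))) (!(xor a (xor sw B))) = xor A B := by
  revert a A B sw
  decide

theorem gn_b5 (A B C : Bool) : xor (xor A C) (xor B C) = xor A B := by
  revert A B C
  decide

theorem st_GN : ST_GN := by
  classical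
  intro V G s Dθ Dσ Dκ hDF h1 h2 hSQ n
  by_cases hex : ∃ e, G.Adj n e
  swap
  · refine ⟨fun _ => false, ?_, ?_⟩
    · intro v w hv
      exact absurd ⟨v, hv⟩ hex
    · intro Q hQ hn v hv w hw hvn
      exact absurd ⟨v, hQ.1 n hn v hv (fun z => hvn z.symm)⟩ hex
  obtain ⟨e, hne⟩ := hex
  have hne' : n ≠ e := hne.ne
  obtain ⟨Q0, hQ0d⟩ : ∃ Q0 : Set V, Q0 = {u | u = n ∨ u = e ∨ (G.Adj n u ∧ G.Adj e u)} := ⟨_, rfl⟩
  have hQ0 : MaxC G Q0 := by rw [hQ0d]; exact exists_MaxC hDF hne
  have hn0 : n ∈ Q0 := by rw [hQ0d]; exact Or.inl rfl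
  have he0 : e ∈ Q0 := by rw [hQ0d]; exact Or.inr (Or.inl rfl)
  have hmem : ∀ v, G.Adj n v → (v ∈ Q0 ↔ v = e ∨ G.Adj e v) := by
    intro v hv
    rw [hQ0d]
    constructor
    · rintro (h | h | h)
      · exact absurd h hv.ne'
      · exact Or.inl h
      · exact Or.inr h.2
    · rintro (h | h)
      · exact Or.inr (Or.inl h)
      · exact Or.inr (Or.inr ⟨hv, h⟩)
  have hfar : ∀ v, G.Adj n v → v ∉ Q0 → v ∈ Far G e := by
    intro v hv hv0
    have h := fun hh => hv0 ((hmem v hv).2 hh)
    exact ⟨fun z => h (Or.inl z), fun z => h (Or.inr z)⟩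
  have hfar' : ∀ v, v ∈ Far G e → e ∈ Far G v := fun v hv =>
    ⟨fun z => hv.1 z.symm, fun z => hv.2 z.symm⟩
  set A : V → Bool := fun v => xor (decide (Dθ Q0 n < Dθ Q0 v)) (Dκ Q0 v) with hA
  have hs0 : ∀ v ∈ Q0, v ≠ n → ∀ u, G.Adj n u → u ∉ Q0 → s v u = xor (Dσ Q0 u) (A v) := by
    intro v hv hvn u hu hu0
    exact (hSQ Q0 hQ0).2 v hv n hn0 (fun z => hvn z.symm) u hu hu0
  refine ⟨fun v => if v ∈ Q0 then xor (A v) (A e) else !(xor (s e v) (s v e)), ?_, ?_⟩
  · intro v w hv hw hvw hadj
    show xor (if v ∈ Q0 then xor (A v) (A e) else !(xor (s e v) (s v e)))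
      (if w ∈ Q0 then xor (A w) (A e) else !(xor (s e w) (s w e))) = !(xor (s v w) (s w v))
    by_cases hv0 : v ∈ Q0
    · by_cases hw0 : w ∈ Q0
      · exact absurd (hQ0.1 v hv0 w hw0 hvw) hadj
      · rw [if_pos hv0, if_neg hw0]
        have hwf := hfar w hw hw0
        have e1 : s e w = xor (Dσ Q0 w) (A e) := hs0 e he0 (fun z => hne' z.symm) w hw hw0
        have e2 : s v w = xor (Dσ Q0 w) (A v) := hs0 v hv0 hv.ne' w hw hw0
        have e3 : s w v = s w e := by
          by_cases hve : v = e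
          · rw [hve]
          · have hev : G.Adj e v := by
              rcases (hmem v hv).1 hv0 with h | h
              · exact absurd h hve
              · exact h
            exact h1 w v e ⟨fun z => hvw z, fun z => hadj z.symm⟩ (hfar' w hwf) hev.symm
        rw [e1, e2, e3]
        exact gn_b2 _ _ _ _
    · by_cases hw0 : w ∈ Q0
      · rw [if_neg hv0, if_pos hw0]
        have hvf := hfar v hv hv0
        have e1 : s e v = xor (Dσ Q0 v) (A e) := hs0 e he0 (fun z => hne' z.symm) v hv hv0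
        have e2 : s w v = xor (Dσ Q0 v) (A w) := hs0 w hw0 hw.ne' v hv hv0
        have e3 : s v w = s v e := by
          by_cases hwe : w = e
          · rw [hwe]
          · have hew : G.Adj e w := by
              rcases (hmem w hw).1 hw0 with h | h
              · exact absurd h hwe
              · exact h
            exact h1 v w e ⟨fun z => hvw z.symm, fun z => hadj z⟩ (hfar' v hvf) hew.symm
        rw [e1, e2, e3]
        exact gn_b3 _ _ _ _
      · rw [if_neg hv0, if_neg hw0]
        have hvf := hfar v hv hv0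
        have hwf := hfar w hw hw0
        have h3 := h2 n e v w hne hv hw (fun z => hvf.1 z.symm) (fun z => hwf.1 z.symm) hvw
          hvf.2 hwf.2 hadj
        have h4 := gn_ex1 _ _ _ _ _ _ h3
        exact gn_b1 _ _ _ _ _ _ h4
  · intro Q hQ hnQ v hv w hw hvn hwn
    show xor (if v ∈ Q0 then xor (A v) (A e) else !(xor (s e v) (s v e)))
      (if w ∈ Q0 then xor (A w) (A e) else !(xor (s e w) (s w e))) = _
    have hnv : G.Adj n v := hQ.1 n hnQ v hv (fun z => hvn z.symm)
    have hnw : G.Adj n w := hQ.1 n hnQ w hw (fun z => hwn z.symm)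
    by_cases heQ : e ∈ Q
    · have hQe : Q = Q0 := by rw [hQ0d]; exact gn_eq hDF hQ hnQ heQ hne
      subst hQe
      rw [if_pos hv, if_pos hw]
      exact gn_b5 _ _ _
    · have hve : v ∉ Q0 := by
        intro hh
        rcases (hmem v hnv).1 hh with h | h
        · exact heQ (h ▸ hv)
        · exact (MaxC.out hDF hQ hnQ hv (fun z => hvn z.symm) heQ hne).2 h.symm
      have hwe : w ∉ Q0 := by
        intro hh
        rcases (hmem w hnw).1 hh with h | h
        · exact heQ (h ▸ hw)
        · exact (MaxC.out hDF hQ hnQ hw (fun z => hwn z.symm) heQ hne).2 h.symm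
      rw [if_neg hve, if_neg hwe]
      have e1 : s v e = xor (Dσ Q e) (xor (decide (Dθ Q n < Dθ Q v)) (Dκ Q v)) :=
        (hSQ Q hQ).2 v hv n hnQ (fun z => hvn z.symm) e hne heQ
      have e2 : s w e = xor (Dσ Q e) (xor (decide (Dθ Q n < Dθ Q w)) (Dκ Q w)) :=
        (hSQ Q hQ).2 w hw n hnQ (fun z => hwn z.symm) e hne heQ
      have e3 : s e v = s e w := by
        by_cases hvw : v = w
        · rw [hvw]
        · exact h1 e v w (hfar v hnv hve) (hfar w hnw hwe) (hQ.1 v hv w hw hvw)
      rw [e1, e2, e3]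
      exact gn_b4 _ _ _ _

end Pool.Agent.Helper64.DT
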