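import Pool.Agent.Helper64.DT.Stmts

/-! Module NBX of the diamond-free circle graph project. -/

set_option autoImplicit false

namespace Pool.Agent.Helper64.DT

open Pool.Agent.Helper64.CT
open Pool.Agent.Helper64.HG (Ovl Model Circ IC HellyCircle ChordModel)

theorem nbx_b1 (g1 g2 l1 l2 : Bool) (h : xor l1 l2 = !(xor g1 g2)) :
    xor g1 l1 ≠ xor g2 l2 := by
  revert h
  revert g1 g2 l1 l2
  decide

theorem nbx_b3 (g1 g2 l a b : Bool) (h : xor g1 g2 = !(xor a b)) :
    xor (xor a b) (xor (xor g1 l) (xor g2 l)) = true := by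
  revert h
  revert g1 g2 l a b
  decide

theorem nbx_b4 (a b c d e f : Bool) (h : Ex1 (a ≠ b) (c ≠ d) (e ≠ f)) :
    ¬ (c ≠ d ∧ e ≠ f ∧ a ≠ b) := by
  unfold Ex1 at h
  revert h
  revert a b c d e f
  decide

/-- the normal form of one value -/
theorem nbx_b5 (g A c l K d : Bool) (hc : c = xor g A) (hd : d = xor (xor K c) l) :
    xor g l = xor A (xor K d) := by
  subst hc
  subst hd
  revert g A l K
  decide

theorem st_NBX (hGN : ST_GN) (hLAM : ST_LAM) (hN5O : ST_N5O) : ST_NBX := by
  classical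
  intro V G s hDF h1 h2 hex
  choose Dθ' hθ' using hex
  have hex2 : ∀ Q, ∃ (θ : V → ℕ) (σ κ : V → Bool), MaxC G Q → SQ G s Q θ σ κ := by
    intro Q
    by_cases hQ : MaxC G Q
    · obtain ⟨σ, κ, h⟩ := hθ' Q hQ
      exact ⟨Dθ' Q hQ, σ, κ, fun _ => h⟩
    · exact ⟨fun _ => 0, fun _ => false, fun _ => false, fun h => absurd h hQ⟩
  choose Dθ Dσ Dκ hSQ using hex2
  have hGN' := hGN V G s Dθ Dσ Dκ hDF h1 h2 hSQ
  choose g hg1 hg2 using hGN'
  obtain ⟨lam, hlam⟩ := hLAM V G s Dθ Dσ Dκ g hDF h1 hSQ hg1 hg2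
  refine ⟨fun n v => if G.Adj n v then xor (g n v) (lam n) else s n v, ?_⟩
  have hb : ∀ n v, G.Adj n v → (if G.Adj n v then xor (g n v) (lam n) else s n v)
      = xor (g n v) (lam n) := fun n v h => if_pos h
  have hb' : ∀ n v, ¬ G.Adj n v → (if G.Adj n v then xor (g n v) (lam n) else s n v)
      = s n v := fun n v h => if_neg h
  constructor
  · intro x y hxy
    show (if G.Adj x y then xor (g x y) (lam x) else s x y)
      ≠ (if G.Adj y x then xor (g y x) (lam y) else s y x)
    rw [hb x y hxy, hb y x hxy.symm]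
    exact nbx_b1 _ _ _ _ (hlam x y hxy)
  · intro c x y hx hy hxy
    show (if G.Adj c x then xor (g c x) (lam c) else s c x)
      = (if G.Adj c y then xor (g c y) (lam c) else s c y)
    rw [hb' c x hx.2, hb' c y hy.2]
    exact h1 c x y hx hy hxy
  · intro n v w hv hw hvw hadj
    show xor (xor (if G.Adj v w then xor (g v w) (lam v) else s v w)
        (if G.Adj w v then xor (g w v) (lam w) else s w v))
      (xor (if G.Adj n v then xor (g n v) (lam n) else s n v)
        (if G.Adj n w then xor (g n w) (lam n) else s n w)) = true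
    rw [hb' v w hadj, hb' w v (fun z => hadj z.symm), hb n v hv, hb n w hw]
    exact nbx_b3 _ _ _ _ _ (hg1 n v w hv hw hvw hadj)
  · intro n a c d ha hc hd hac had hcd h3 h4 h5
    show ¬ ((if G.Adj a c then xor (g a c) (lam a) else s a c)
        ≠ (if G.Adj a d then xor (g a d) (lam a) else s a d)
      ∧ (if G.Adj c a then xor (g c a) (lam c) else s c a)
        ≠ (if G.Adj c d then xor (g c d) (lam c) else s c d)
      ∧ (if G.Adj d a then xor (g d a) (lam d) else s d a)
        ≠ (if G.Adj d c then xor (g d c) (lam d) else s d c))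
    rw [hb' a c h3, hb' a d h4, hb' c a (fun z => h3 z.symm), hb' c d h5,
      hb' d a (fun z => h4 z.symm), hb' d c (fun z => h5 z.symm)]
    exact nbx_b4 _ _ _ _ _ _ (h2 n a c d ha hc hd hac had hcd h3 h4 h5)
  · intro x y z w hxy hyz hzx hwx hwy hwz
    show (if G.Adj x y then xor (g x y) (lam x) else s x y) = true →
      (if G.Adj y z then xor (g y z) (lam y) else s y z) = true →
      (if G.Adj z x then xor (g z x) (lam z) else s z x) = true →
      ¬ ((if G.Adj x w then xor (g x w) (lam x) else s x w)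
          = (if G.Adj y w then xor (g y w) (lam y) else s y w)
        ∧ (if G.Adj y w then xor (g y w) (lam y) else s y w)
          = (if G.Adj z w then xor (g z w) (lam z) else s z w))
    obtain ⟨Q, hQd⟩ : ∃ Q : Set V, Q = {u | u = x ∨ u = y ∨ (G.Adj x u ∧ G.Adj y u)} := ⟨_, rfl⟩
    have hQ : MaxC G Q := by rw [hQd]; exact exists_MaxC hDF hxy
    have hx : x ∈ Q := by rw [hQd]; exact Or.inl rfl
    have hy : y ∈ Q := by rw [hQd]; exact Or.inr (Or.inl rfl)
    have hz : z ∈ Q := by rw [hQd]; exact Or.inr (Or.inr ⟨hzx.symm, hyz⟩)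
    have hw : w ∈ Q := by rw [hQd]; exact Or.inr (Or.inr ⟨hwx.symm, hwy.symm⟩)
    -- every vertex of the clique has another vertex
    have hoth : ∀ u ∈ Q, ∃ v ∈ Q, v ≠ u := by
      intro u hu
      by_cases h : u = x
      · exact ⟨y, hy, fun e => hxy.ne (by rw [← h, e])⟩
      · exact ⟨x, hx, fun e => h e.symm⟩
    set A : V → V → Bool := fun u v => xor (decide (Dθ Q u < Dθ Q v)) (Dκ Q v) with hA
    -- the constant at `u`
    have hc : ∀ u ∈ Q, ∃ c : Bool, ∀ v ∈ Q, v ≠ u → c = xor (g u v) (A u v) := by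
      intro u hu
      obtain ⟨v0, hv0, hvu⟩ := hoth u hu
      refine ⟨xor (g u v0) (A u v0), ?_⟩
      intro v hv hvu'
      have h := hg2 u Q hQ hu v0 hv0 v hv hvu hvu'
      have h' : xor (g u v0) (g u v) = xor (A u v0) (A u v) := h
      revert h'
      generalize g u v0 = a1
      generalize g u v = a2
      generalize A u v0 = a3
      generalize A u v = a4
      revert a1 a2 a3 a4
      decide
    choose! c hc using hc
    -- the common value
    have hδ : ∀ u ∈ Q, ∀ v ∈ Q, xor (xor (Dκ Q u) (c u)) (lam u)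
        = xor (xor (Dκ Q v) (c v)) (lam v) := by
      intro u hu v hv
      by_cases huv : u = v
      · rw [huv]
      have e1 := hc u hu v hv (fun e => huv e.symm)
      have e2 := hc v hv u hu huv
      have e3 := hlam u v (hQ.1 u hu v hv huv)
      have hθ : decide (Dθ Q u < Dθ Q v) = !(decide (Dθ Q v < Dθ Q u)) := by
        have hne : Dθ Q u ≠ Dθ Q v := fun e => huv ((hSQ Q hQ).1 hu hv e)
        by_cases h : Dθ Q u < Dθ Q v
        · have h' : ¬ Dθ Q v < Dθ Q u := by omega
          simp [h, h']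
        · have h' : Dθ Q v < Dθ Q u := by omega
          simp [h, h']
      rw [e1, e2]
      show xor (xor (Dκ Q u) (xor (g u v) (xor (decide (Dθ Q u < Dθ Q v)) (Dκ Q v)))) (lam u)
        = xor (xor (Dκ Q v) (xor (g v u) (xor (decide (Dθ Q v < Dθ Q u)) (Dκ Q u)))) (lam v)
      rw [hθ]
      revert e3
      generalize g u v = a1
      generalize g v u = a2
      generalize lam u = a3
      generalize lam v = a4
      generalize Dκ Q u = a5
      generalize Dκ Q v = a6
      generalize decide (Dθ Q v < Dθ Q u) = a7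
      revert a1 a2 a3 a4 a5 a6 a7
      decide
    intro k1 k2 k3
    refine hN5O V (Dθ Q) (Dκ Q) (xor (xor (Dκ Q x) (c x)) (lam x))
      (fun n v => if G.Adj n v then xor (g n v) (lam n) else s n v) Q (hSQ Q hQ).1 ?_
      x hx y hy z hz w hw hxy.ne hyz.ne hzx.ne hwx.ne hwy.ne hwz.ne k1 k2 k3
    intro u hu v hv huv
    show (if G.Adj u v then xor (g u v) (lam u) else s u v) = _
    rw [hb u v (hQ.1 u hu v hv huv), hδ x hx u hu]
    have e1 := hc u hu v hv (fun e => huv e.symm)
    have e1' : c u = xor (g u v) (xor (decide (Dθ Q u < Dθ Q v)) (Dκ Q v)) := e1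
    rw [e1']
    generalize g u v = a1
    generalize lam u = a3
    generalize Dκ Q u = a5
    generalize Dκ Q v = a6
    generalize decide (Dθ Q u < Dθ Q v) = a7
    revert a1 a3 a5 a6 a7
    decide

end Pool.Agent.Helper64.DT
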